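import Mathlib
import Pool.Agent.helper35.DR.SpecP

/-!
# Project dr (MP_baa4d7_al), PSB: stabilisers in the fibre square
-/

set_option autoImplicit false

namespace Pool.Agent.DR

open Pool.Agent.helper58.DC Pool.Agent.DI

theorem PSB_wAct {L : Type} [Group L] (l : L) (W : Finset (TT → ℕ)) : wAct l W = W := by
  ext r
  rw [mem_wAct]
  rfl

theorem PSB (hNM : NM_stmt) (hAE : AE_stmt) (hAU : AU_stmt) (hSK : SK_stmt) (hIO : IO_stmt)
    (hIF : IF_stmt) : PSB_stmt := by
  intro G E A _ _ _ _ _ X p _ hOp C hC W hW ψ hψ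
  ext e
  have hchain : chainMap ((X2 X).act e) (asmC C W) =
      asmC (fun t => chainMap (X.act (e.f t)) (C t)) W := by
    have h := hAE G E A A TT X (diag A) e C W
    rw [PSB_wAct] at h
    exact h
  have hfun : funMap ((X2 X).act e) (tens ψ) = tens fun t => funMap (X.act (e.f t)) (ψ t) := by
    have h := (hSK G E A A TT X (diag A) (⊤ : Ideal (integralClosure ℤ ℂ))).1 e ψ
    exact h
  constructor
  · rintro ⟨h1, h2⟩
    rw [hchain] at h1
    rw [hfun] at h2
    have hrad : ∀ t, IsRadical p (chainMap (X.act (e.f t)) (C t)) :=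
      fun t => (hNM G (X.act (e.f t)) (C t)).2.2.2.2.2.2 p (hC t)
    have hcard : (fun t => (chainMap (X.act (e.f t)) (C t)).card - 1) =
        fun t => (C t).card - 1 := by
      funext t
      rw [(hNM G (X.act (e.f t)) (C t)).2.2.1]
    have h3 := (hAU G TT p hOp (fun t => chainMap (X.act (e.f t)) (C t)) C hrad hC W W
      (by rw [hcard]; exact hW) hW h1).1
    have h4 : ∀ t, chainMap (X.act (e.f t)) (C t) = C t := fun t => congrFun h3 t
    have h5 : ∀ t, funMap (X.act (e.f t)) (ψ t) ∈ IrrOn (nrm (C t)) := by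
      intro t
      have h6 := ((hIF G (nrm (C t))).2 (ψ t) (hψ t)).2.2 (X.act (e.f t))
      rw [← (hNM G (X.act (e.f t)) (C t)).2.2.2.1, h4 t] at h6
      exact h6
    have h6 := (hIO G TT (fun t => nrm (C t))).2.2 (fun t => funMap (X.act (e.f t)) (ψ t)) ψ
      h5 hψ h2
    exact fun t => ⟨h4 t, congrFun h6 t⟩
  · intro h
    have h1 : ∀ t, chainMap (X.act (e.f t)) (C t) = C t := fun t => (h t).1
    have h2 : ∀ t, funMap (X.act (e.f t)) (ψ t) = ψ t := fun t => (h t).2
    refine ⟨?_, ?_⟩
    · rw [hchain]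
      exact congrArg (fun D => asmC D W) (funext h1)
    · rw [hfun]
      exact congrArg tens (funext h2)

end Pool.Agent.DR
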